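import Pool.Agent.PFD.StmtsD3

/-!
Squad PFD, block D3, row CPN: the nilpotent ideal of the crossed product.
-/

set_option autoImplicit false

noncomputable section

namespace Pool.Agent.PFD.D3.H60

open Pool.Agent.PFD

theorem cpn : CpnStmt := by
  intro k S E _ _ _ _ _ D P N hP hN
  let Pc : Submodule k (CP D) :=
    { carrier := {a | ∀ e, a.f e ∈ P}
      add_mem' := fun {a b} ha hb e => by
        rw [CP.add_f]
        exact P.add_mem (ha e) (hb e)
      zero_mem' := fun e => by
        rw [CP.zero_f]
        exact P.zero_mem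
      smul_mem' := fun r a ha e => by
        rw [CP.smul_f, Algebra.smul_def]
        exact P.mul_mem_left _ (ha e) }
  have hmem : ∀ a, a ∈ Pc ↔ ∀ e, a.f e ∈ P := fun a => Iff.rfl
  have hsm : ∀ (Q : Ideal S) (r : k) (s : S), s ∈ Q → r • s ∈ Q := by
    intro Q r s hs
    rw [Algebra.smul_def]
    exact Q.mul_mem_left _ hs
  refine ⟨Pc, hmem, ?_, ?_, ?_⟩
  · intro a y hy e
    rw [CP.mul_f]
    refine Ideal.sum_mem _ fun h _ => hsm _ _ _ ?_
    exact P.mul_mem_left _ (hP h _ (hy _))
  · intro a y hy e
    rw [CP.mul_f]
    refine Ideal.sum_mem _ fun h _ => hsm _ _ _ ?_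
    exact P.mul_mem_right _ (hy _)
  · intro y hy
    have key : ∀ m : ℕ, ∀ e, (((List.range m).map y).prod).f e ∈ P ^ m := by
      intro m
      induction m with
      | zero =>
        intro e
        rw [pow_zero, Ideal.one_eq_top]
        exact Submodule.mem_top
      | succ m ih =>
        intro e
        rw [List.range_succ, List.map_append, List.prod_append, List.map_singleton,
          List.prod_singleton, CP.mul_f, pow_succ]
        refine Ideal.sum_mem _ fun h _ => hsm _ _ _ ?_
        exact Ideal.mul_mem_mul (ih h) (hP h _ (hy m _))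
    apply CP.ext
    funext e
    have h := key N e
    rw [hN] at h
    rw [CP.zero_f]
    exact (Submodule.mem_bot _).1 h

end Pool.Agent.PFD.D3.H60
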