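import Pool.Agent.PFD.StmtsD3

/-!
Squad PFD, block D3, row GBS: the reduced monomials are a basis of the quotient, and the quotient is
graded.  (Model: `Helper83_PFC/BAS.lean`.)
-/

set_option autoImplicit false

noncomputable section

namespace Pool.Agent.PFD.D3.H60

open MvPolynomial
open Pool.Agent.PFD

section

variable {k I : Type} [CommRing k] [Fintype I] (q : I → ℕ) (f : I → MvPolynomial I k)

/-- the product of the relations -/
def tm (γ : I →₀ ℕ) : MvPolynomial I k :=
  ∏ i, f i ^ (γ i / q i) * X i ^ (γ i % q i)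

/-- the linear map with `T (x ^ γ)` = the product of the relations -/
def TT : MvPolynomial I k →ₗ[k] MvPolynomial I k :=
  (basisMonomials I k).constr k (tm q f)

lemma TT_monomial (γ : I →₀ ℕ) : TT q f (monomial γ 1) = tm q f γ := by
  have h := (basisMonomials I k).constr_basis k (tm q f) γ
  rwa [coe_basisMonomials] at h

lemma mul_tm (hq : ∀ i, 0 < q i) (i : I) (γ : I →₀ ℕ) :
    f i * tm q f γ = tm q f (Finsupp.single i (q i) + γ) := by
  classical
  rw [tm, tm, ← Finset.mul_prod_erase Finset.univ _ (Finset.mem_univ i),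
    ← Finset.mul_prod_erase Finset.univ _ (Finset.mem_univ i)]
  have h1 : (Finsupp.single i (q i) + γ) i = γ i + q i := by
    rw [Finsupp.add_apply, Finsupp.single_eq_same, add_comm]
  have h2 : ∏ x ∈ Finset.univ.erase i, f x ^ ((Finsupp.single i (q i) + γ) x / q x) *
      X x ^ ((Finsupp.single i (q i) + γ) x % q x) =
      ∏ x ∈ Finset.univ.erase i, f x ^ (γ x / q x) * X x ^ (γ x % q x) := by
    refine Finset.prod_congr rfl fun x hx => ?_
    have hxi : i ≠ x := fun h => (Finset.ne_of_mem_erase hx) h.symm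
    rw [Finsupp.add_apply, Finsupp.single_eq_of_ne' hxi, zero_add]
  rw [h2, h1, Nat.add_div_right _ (hq i), Nat.add_mod_right, pow_succ]
  ring

lemma mul_TT (hq : ∀ i, 0 < q i) (i : I) (s : MvPolynomial I k) :
    f i * TT q f s = TT q f (X i ^ q i * s) := by
  have h : (LinearMap.mulLeft k (f i)).comp (TT q f) =
      (TT q f).comp (LinearMap.mulLeft k (X i ^ q i)) := by
    refine (basisMonomials I k).ext fun γ => ?_
    rw [coe_basisMonomials, LinearMap.comp_apply, LinearMap.comp_apply, LinearMap.mulLeft_apply,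
      LinearMap.mulLeft_apply, TT_monomial, mul_tm q f hq, X_pow_eq_monomial, monomial_mul, mul_one,
      TT_monomial]
  exact congrArg (fun g : MvPolynomial I k →ₗ[k] MvPolynomial I k => g s) h

/-- the polynomials without reduced monomials -/
def NN (k : Type) [CommRing k] : Submodule k (MvPolynomial I k) where
  carrier := {s | ∀ γ : I →₀ ℕ, (∀ i, γ i < q i) → coeff γ s = 0}
  add_mem' := by
    intro a b ha hb γ hγ
    rw [coeff_add, ha γ hγ, hb γ hγ, add_zero]
  zero_mem' := by
    intro γ _
    exact coeff_zero γ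
  smul_mem' := by
    intro c a ha γ hγ
    rw [coeff_smul, ha γ hγ, smul_zero]

omit [Fintype I] in
lemma mul_mem_NN (i : I) (s : MvPolynomial I k) : X i ^ q i * s ∈ NN q k := by
  intro γ hγ
  rw [X_pow_eq_monomial, coeff_monomial_mul', if_neg]
  intro h
  have h1 := h i
  rw [Finsupp.single_eq_same] at h1
  exact absurd (hγ i) (not_lt.2 h1)

lemma tm_mem (γ : I →₀ ℕ) (hq : ∀ i, 0 < q i) (h : ∃ i, q i ≤ γ i) :
    tm q f γ ∈ Ideal.span (Set.range f) := by
  classical
  obtain ⟨i, hi⟩ := h
  rw [tm, ← Finset.mul_prod_erase Finset.univ _ (Finset.mem_univ i)]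
  refine Ideal.mul_mem_right _ _ (Ideal.mul_mem_right _ _ ?_)
  refine Ideal.pow_mem_of_mem _ ?_ _ (Nat.div_pos hi (hq i))
  exact Ideal.subset_span ⟨i, rfl⟩

lemma ideal_sub (hq : ∀ i, 0 < q i) (hT : Function.Surjective (TT q f)) (x : MvPolynomial I k)
    (hx : x ∈ Ideal.span (Set.range f)) : ∃ s ∈ NN q k, TT q f s = x := by
  obtain ⟨c, hc⟩ := (Ideal.mem_span_range_iff_exists_fun).1 hx
  choose s hs using fun i => hT (c i)
  refine ⟨∑ i, X i ^ q i * s i, Submodule.sum_mem _ fun i _ => mul_mem_NN q i (s i), ?_⟩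
  rw [← hc, map_sum]
  refine Finset.sum_congr rfl fun i _ => ?_
  rw [← mul_TT q f hq, hs i, mul_comm]

/-- the exponent of a reduced monomial -/
def fs {q : I → ℕ} (α : ∀ i, Fin (q i)) : I →₀ ℕ := Finsupp.equivFunOnFinite.symm fun i => (α i : ℕ)

lemma fs_apply {q : I → ℕ} (α : ∀ i, Fin (q i)) (i : I) : fs α i = α i := rfl

lemma fs_inj {q : I → ℕ} {α β : ∀ i, Fin (q i)} (h : fs α = fs β) : α = β := by
  funext i
  apply Fin.ext
  exact congrArg (fun g : I →₀ ℕ => g i) h

lemma fs_deg {q : I → ℕ} (α : ∀ i, Fin (q i)) : (fs α).degree = ∑ i, (α i : ℕ) := by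
  rw [Finsupp.degree_eq_sum]
  rfl

lemma TT_red (α : ∀ i, Fin (q i)) : TT q f (monomial (fs α) 1) = PFC.B3.mo k I α := by
  rw [TT_monomial, tm, PFC.B3.mo]
  refine Finset.prod_congr rfl fun i _ => ?_
  rw [fs_apply, Nat.div_eq_of_lt (α i).2, Nat.mod_eq_of_lt (α i).2, pow_zero, one_mul]

lemma tm_hom (hf : ∀ i, (f i).IsHomogeneous (q i)) (γ : I →₀ ℕ) :
    (tm q f γ).IsHomogeneous γ.degree := by
  have h : γ.degree = ∑ i, (q i * (γ i / q i) + γ i % q i) := by
    rw [Finsupp.degree_eq_sum]
    refine Finset.sum_congr rfl fun i _ => ?_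
    rw [Nat.div_add_mod]
  rw [h, tm]
  refine IsHomogeneous.prod _ _ _ fun i _ => ?_
  exact ((hf i).pow _).mul (isHomogeneous_X_pow i _)

lemma TT_comp (hf : ∀ i, (f i).IsHomogeneous (q i)) (d : ℕ) (s : MvPolynomial I k) :
    homogeneousComponent d (TT q f s) = TT q f (homogeneousComponent d s) := by
  have h : (homogeneousComponent d).comp (TT q f) =
      (TT q f).comp (homogeneousComponent d) := by
    refine (basisMonomials I k).ext fun γ => ?_
    rw [coe_basisMonomials, LinearMap.comp_apply, LinearMap.comp_apply, TT_monomial]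
    by_cases hd : d = γ.degree
    · subst hd
      rw [homogeneousComponent_of_mem ((mem_homogeneousSubmodule _ _).2 (tm_hom q f hf γ)),
        if_pos rfl,
        homogeneousComponent_of_mem ((mem_homogeneousSubmodule _ _).2
          (isHomogeneous_monomial (1 : k) rfl)), if_pos rfl, TT_monomial]
    · rw [homogeneousComponent_of_mem ((mem_homogeneousSubmodule _ _).2 (tm_hom q f hf γ)),
        if_neg hd,
        homogeneousComponent_of_mem ((mem_homogeneousSubmodule _ _).2
          (isHomogeneous_monomial (1 : k) rfl)), if_neg hd, map_zero]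
  exact congrArg (fun g : MvPolynomial I k →ₗ[k] MvPolynomial I k => g s) h

end

lemma map_eq_zero_dvd {R F I : Type} [CommRing R] [Field F] (c : D2.Cdv R F)
    (p : MvPolynomial I R) (hp : MvPolynomial.map c.κ p = 0) : ∃ p', p = c.π • p' := by
  have h1 : ∀ γ, ∃ s, coeff γ p = c.π * s := by
    intro γ
    rw [← c.ker, ← coeff_map, hp, coeff_zero]
  choose s hs using h1
  refine ⟨∑ γ ∈ p.support, monomial γ (s γ), ?_⟩
  rw [Finset.smul_sum]
  conv_lhs => rw [p.as_sum]
  refine Finset.sum_congr rfl fun γ _ => ?_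
  rw [smul_monomial, smul_eq_mul, ← hs]

theorem gbs (gbj : GbjStmt) : GbsStmt := by
  classical
  intro k F I _ _ _ c q f hq hf hm
  have hT : Function.Bijective (TT q f) := by
    refine gbj k F I c (TT q f) (fun γ => ?_) fun γ => ?_
    · rw [TT_monomial]
      exact tm_hom q f hf γ
    · rw [TT_monomial]
      refine map_eq_zero_dvd c _ ?_
      rw [map_sub, tm, map_prod, map_monomial, map_one, sub_eq_zero, monomial_eq, map_one,
        one_mul, Finsupp.prod_fintype _ _ (fun i => pow_zero _)]
      refine Finset.prod_congr rfl fun i _ => ?_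
      rw [map_mul, map_pow, map_pow, hm, map_X, ← pow_mul, ← pow_add, Nat.div_add_mod]
  have hli : LinearIndependent k
      (fun α : ∀ i, Fin (q i) => Ideal.Quotient.mkₐ k (Ideal.span (Set.range f))
        (PFC.B3.mo k I α)) := by
    rw [Fintype.linearIndependent_iff]
    intro g hg
    have h1 : ∑ α, g α • PFC.B3.mo k I α ∈ Ideal.span (Set.range f) := by
      rw [← Ideal.Quotient.eq_zero_iff_mem, ← Ideal.Quotient.mkₐ_eq_mk k, map_sum]
      simpa using hg
    obtain ⟨s, hs, hs'⟩ := ideal_sub q f hq hT.2 _ h1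
    have h2 : TT q f (∑ α : ∀ i, Fin (q i), g α • monomial (fs α) 1) = TT q f s := by
      rw [hs', map_sum]
      refine Finset.sum_congr rfl fun α _ => ?_
      rw [map_smul, TT_red]
    have h3 := hT.1 h2
    intro α
    have h4 : coeff (fs α) (∑ β : ∀ i, Fin (q i), g β • (monomial (fs β) 1 : MvPolynomial I k)) =
        0 := by
      rw [h3]
      exact hs _ fun i => (α i).2
    rw [coeff_sum, Finset.sum_eq_single α] at h4
    · rwa [coeff_smul, coeff_monomial, if_pos rfl, smul_eq_mul, mul_one] at h4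
    · intro β _ hβ
      rw [coeff_smul, coeff_monomial, if_neg, smul_zero]
      intro h
      exact hβ (fs_inj h)
    · intro h
      exact absurd (Finset.mem_univ α) h
  have hzero : ∀ γ : I →₀ ℕ, ¬ (∀ i, γ i < q i) →
      Ideal.Quotient.mkₐ k (Ideal.span (Set.range f)) (TT q f (monomial γ 1)) = 0 := by
    intro γ hγ
    push Not at hγ
    rw [Ideal.Quotient.mkₐ_eq_mk, Ideal.Quotient.eq_zero_iff_mem, TT_monomial]
    exact tm_mem q f γ hq hγ
  have hsp : ⊤ ≤ Submodule.span k (Set.range
      (fun α : ∀ i, Fin (q i) => Ideal.Quotient.mkₐ k (Ideal.span (Set.range f))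
        (PFC.B3.mo k I α))) := by
    intro z _
    obtain ⟨x, rfl⟩ := Ideal.Quotient.mkₐ_surjective k (Ideal.span (Set.range f)) z
    obtain ⟨s, rfl⟩ := hT.2 x
    rw [s.as_sum, map_sum, map_sum]
    refine Submodule.sum_mem _ fun γ _ => ?_
    have h1 : (monomial γ (coeff γ s) : MvPolynomial I k) = coeff γ s • monomial γ 1 := by
      rw [smul_monomial, smul_eq_mul, mul_one]
    rw [h1, map_smul, map_smul]
    refine Submodule.smul_mem _ _ ?_
    by_cases hγ : ∀ i, γ i < q i
    · have h2 : γ = fs (q := q) fun i => ⟨γ i, hγ i⟩ := by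
        ext i
        rfl
      rw [h2, TT_red]
      exact Submodule.subset_span ⟨_, rfl⟩
    · rw [hzero γ hγ]
      exact Submodule.zero_mem _
  let b := Module.Basis.mk hli hsp
  have hb : ∀ α, b α = Ideal.Quotient.mkₐ k (Ideal.span (Set.range f)) (PFC.B3.mo k I α) :=
    fun α => Module.Basis.mk_apply hli hsp α
  refine ⟨b, fun α => ?_, ?_⟩
  · rw [hb]
    rfl
  · intro d p hp α hα
    obtain ⟨s, rfl⟩ := hT.2 p
    have hrep : ∀ s : MvPolynomial I k, b.repr (Ideal.Quotient.mkₐ k (Ideal.span (Set.range f))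
        (TT q f s)) α = coeff (fs α) s := by
      intro s
      have h : ((b.coord α).comp ((Ideal.Quotient.mkₐ k (Ideal.span (Set.range f))).toLinearMap)).comp
          (TT q f) = lcoeff k (fs α) := by
        refine (basisMonomials I k).ext fun γ => ?_
        rw [coe_basisMonomials, LinearMap.comp_apply, LinearMap.comp_apply, lcoeff_apply,
          coeff_monomial, AlgHom.toLinearMap_apply, Module.Basis.coord_apply]
        by_cases hγ : ∀ i, γ i < q i
        · have h2 : γ = fs (q := q) fun i => ⟨γ i, hγ i⟩ := by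
            ext i
            rfl
          rw [h2, TT_red, ← hb, Module.Basis.repr_self, Finsupp.single_apply]
          refine if_congr ⟨fun h => by rw [h], fun h => fs_inj h⟩ rfl rfl
        · rw [hzero γ hγ, map_zero, Finsupp.zero_apply, if_neg]
          rintro rfl
          exact hγ fun i => (α i).2
      exact congrArg (fun g : MvPolynomial I k →ₗ[k] k => g s) h
    have h0 := hrep s
    rw [Ideal.Quotient.mkₐ_eq_mk] at h0
    rw [h0]
    have h1 : homogeneousComponent (∑ i, (α i : ℕ)) (TT q f s) = 0 := by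
      rw [homogeneousComponent_of_mem ((mem_homogeneousSubmodule _ _).2 hp), if_neg hα]
    rw [TT_comp q f hf] at h1
    have h2 : homogeneousComponent (∑ i, (α i : ℕ)) s = 0 := by
      apply hT.1
      rw [h1, map_zero]
    have h3 := congrArg (coeff (fs α)) h2
    rwa [coeff_homogeneousComponent, if_pos (fs_deg α), coeff_zero] at h3

end Pool.Agent.PFD.D3.H60
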